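import Pool.Agent.Helper77.SD.St

set_option autoImplicit false

namespace Pool.Agent.Helper84.SD

open Pool.Agent.Helper77.SD
open MeasureTheory Metric Set
open scoped Gradient RealInnerProductSpace ENNReal

private lemma COR_tf {d : ℕ} (η : E d) (c : E d → ℝ) (c0 c1 τ κ : ℝ) (u : E d → ℝ) (hc0 : 0 < c0)
    (lo : ∀ x, c0 ≤ c x) (hi : ∀ x, c x ≤ c1) (hτ : 0 ≤ τ) (x : E d) :
    |tf c τ η u x| ≤ √c1 * (Real.exp (-(κ * |⟪η, x⟫|)) * |Real.exp ((τ + κ) * |⟪η, x⟫|) * u x|) := by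
  have _ := hc0
  have _ := lo
  have h1 : √(c x) ≤ √c1 := Real.sqrt_le_sqrt (hi x)
  have h2 : Real.exp (τ * ⟪η, x⟫) ≤ Real.exp (-(κ * |⟪η, x⟫|)) * Real.exp ((τ + κ) * |⟪η, x⟫|) := by
    rw [← Real.exp_add]
    apply Real.exp_le_exp.mpr
    have := mul_le_mul_of_nonneg_left (le_abs_self (⟪η, x⟫ : ℝ)) hτ
    linarith
  unfold tf wt
  rw [abs_mul, abs_mul, abs_of_nonneg (Real.sqrt_nonneg _), abs_of_pos (Real.exp_pos _), abs_mul,
    abs_of_pos (Real.exp_pos _), mul_assoc]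
  apply mul_le_mul h1 _ (by positivity) (Real.sqrt_nonneg _)
  rw [← mul_assoc]
  exact mul_le_mul_of_nonneg_right h2 (abs_nonneg _)

theorem hCOR : StCOR := by
  intro d l η B c lam Λ c0 c1 P τ κ u hM hτ hκ hlη hU
  have hc01 : c0 ≤ c1 := (hM.lo 0).trans (hM.hi 0)
  have hc1 : 0 ≤ c1 := hM.c0_pos.le.trans hc01
  set U : E d → ℝ := fun x => Real.exp ((τ + κ) * |⟪η, x⟫|) * u x with hUdef
  have hUn : L2 (fun x => |U x|) := by
    have := hU.norm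
    simpa [Real.norm_eq_abs] using this
  have hnU : nrm (fun x => |U x|) = nrm U := by simp [nrm]
  refine ⟨c1 * nrm U ^ 2, fun j => ?_⟩
  have hsh : L2 (fun x => |U (x + (j : ℝ) • l)|) := l2_shift hUn _
  have hexp : Real.exp (-(κ * ⟪l, η⟫)) ^ j = Real.exp (-(κ * ((j : ℝ) * ⟪l, η⟫))) := by
    rw [← Real.exp_nat_mul]; congr 1; ring
  have hpt : ∀ x, ‖tf c τ η u x * tf c τ η u (x + (j : ℝ) • l)‖ ≤
      (c1 * Real.exp (-(κ * ⟪l, η⟫)) ^ j) * (|U x| * |U (x + (j : ℝ) • l)|) := by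
    intro x
    rw [Real.norm_eq_abs, abs_mul, hexp]
    have h1 := COR_tf η c c0 c1 τ κ u hM.c0_pos hM.lo hM.hi hτ x
    have h2 := COR_tf η c c0 c1 τ κ u hM.c0_pos hM.lo hM.hi hτ (x + (j : ℝ) • l)
    refine (mul_le_mul h1 h2 (abs_nonneg _) (by positivity)).trans ?_
    have h3 : Real.exp (-(κ * |⟪η, x⟫|)) * Real.exp (-(κ * |⟪η, x + (j : ℝ) • l⟫|)) ≤
        Real.exp (-(κ * ((j : ℝ) * ⟪l, η⟫))) := by
      rw [← Real.exp_add]
      apply Real.exp_le_exp.mpr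
      have h4 : (j : ℝ) * ⟪l, η⟫ ≤ |⟪η, x⟫| + |⟪η, x + (j : ℝ) • l⟫| := by
        have h5 : (⟪η, x + (j : ℝ) • l⟫ : ℝ) = ⟪η, x⟫ + (j : ℝ) * ⟪l, η⟫ := by
          rw [inner_add_right, real_inner_smul_right, real_inner_comm l η]
        have h6 := neg_abs_le (⟪η, x⟫ : ℝ)
        have h7 := le_abs_self (⟪η, x + (j : ℝ) • l⟫ : ℝ)
        rw [h5] at h7
        rw [h5]
        linarith
      have h8 := mul_le_mul_of_nonneg_left h4 hκ
      linarith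
    have h9 : √c1 * √c1 = c1 := Real.mul_self_sqrt hc1
    calc √c1 * (Real.exp (-(κ * |⟪η, x⟫|)) * |U x|) *
        (√c1 * (Real.exp (-(κ * |⟪η, x + (j : ℝ) • l⟫|)) * |U (x + (j : ℝ) • l)|))
        = (√c1 * √c1) * (Real.exp (-(κ * |⟪η, x⟫|)) * Real.exp (-(κ * |⟪η, x + (j : ℝ) • l⟫|))) *
          (|U x| * |U (x + (j : ℝ) • l)|) := by ring
      _ ≤ (√c1 * √c1) * Real.exp (-(κ * ((j : ℝ) * ⟪l, η⟫))) * (|U x| * |U (x + (j : ℝ) • l)|) := by
          apply mul_le_mul_of_nonneg_right _ (by positivity)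
          exact mul_le_mul_of_nonneg_left h3 (by positivity)
      _ = _ := by rw [h9]
  have hint : Integrable (fun x => (c1 * Real.exp (-(κ * ⟪l, η⟫)) ^ j) * (|U x| * |U (x + (j : ℝ) • l)|)) :=
    (integrable_mul hUn hsh).const_mul _
  have h1 := norm_integral_le_of_norm_le hint (Filter.Eventually.of_forall hpt)
  rw [Real.norm_eq_abs] at h1
  refine h1.trans ?_
  rw [integral_const_mul]
  have h2 := (le_abs_self _).trans (abs_integral_mul_le hUn hsh)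
  have h3 : nrm (fun x => |U (x + (j : ℝ) • l)|) = nrm U := by
    rw [← hnU]
    exact nrm_shift (fun x => |U x|) ((j : ℝ) • l)
  rw [h3, hnU] at h2
  calc c1 * Real.exp (-(κ * ⟪l, η⟫)) ^ j * ∫ x, |U x| * |U (x + (j : ℝ) • l)|
      ≤ c1 * Real.exp (-(κ * ⟪l, η⟫)) ^ j * (nrm U * nrm U) :=
        mul_le_mul_of_nonneg_left h2 (by positivity)
    _ = c1 * nrm U ^ 2 * Real.exp (-(κ * ⟪l, η⟫)) ^ j := by ring

end Pool.Agent.Helper84.SD
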